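import Pool.Agent.N641.VB.Stm3
import Pool.Agent.N765.VB.ST3

set_option autoImplicit false

/-!
# Project VB (helper641), leaf ST5 (helper81): countably many codes in interpreted algebras

Adapted from `Pool/Agent/N765/VB/ST3.lean` (helper765).
-/

namespace Pool.Agent.N81.VB.ST5

open Set MeasureTheory FirstOrder FirstOrder.Language
open Pool.Agent.N641.VB
open Pool.Agent.N765.VB.ST3 (leS muS D0S pick_eq meas_le meas_D0 Tr tr_iso le_inv D0_inv PPc_inv)

variable {L : FirstOrder.Language.{0, 0}}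

/-! ### Invariance under surjections -/

section inv

variable {f : ℕ → ℕ} (hf : Function.Surjective f) (le : ℕ → ℕ → Prop)

include hf

theorem Dif_sur (a b c : ℕ) : Dif (fun x y => le (f x) (f y)) a b c ↔ Dif le (f a) (f b) (f c) := by
  refine and_congr Iff.rfl (and_congr Iff.rfl (and_congr ?_ ?_))
  · refine Iff.trans ?_ hf.forall.symm
    refine forall_congr' fun d => imp_congr Iff.rfl (imp_congr Iff.rfl ?_)
    refine Iff.trans ?_ hf.forall.symm
    exact Iff.rfl
  · refine Iff.trans ?_ hf.forall.symm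
    exact Iff.rfl

theorem tpc_sur {M : Type} (mu : ℕ → M) : ∀ (k a : ℕ),
    tpc (fun x y => le (f x) (f y)) (fun x => mu (f x)) k a = tpc le mu k (f a)
  | 0, a => propext (Iff.trans Iff.rfl hf.forall.symm)
  | k + 1, a => by
    refine Prod.ext rfl (Set.ext fun q => ?_)
    show (∃ b c, Dif (fun x y => le (f x) (f y)) a b c ∧
      q = (tpc (fun x y => le (f x) (f y)) (fun x => mu (f x)) k b,
        tpc (fun x y => le (f x) (f y)) (fun x => mu (f x)) k c)) ↔
      ∃ b c, Dif le (f a) b c ∧ q = (tpc le mu k b, tpc le mu k c)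
    refine Iff.trans ?_ hf.exists.symm
    refine exists_congr fun b => ?_
    refine Iff.trans ?_ hf.exists.symm
    refine exists_congr fun c => ?_
    rw [Dif_sur hf, tpc_sur mu k b, tpc_sur mu k c]

theorem fin_sur : Function.Surjective (Finset.image f) := by
  intro s
  obtain ⟨g, hg⟩ := hf.hasRightInverse
  refine ⟨s.image g, ?_⟩
  rw [Finset.image_image, show f ∘ g = id from funext hg, Finset.image_id]

theorem DDc_sur (D0 : ℕ → Prop) : ∀ (n a : ℕ),
    DDc (fun x y => le (f x) (f y)) (fun x => D0 (f x)) n a ↔ DDc le D0 n (f a)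
  | 0, a => Iff.rfl
  | n + 1, a => by
    have ih := DDc_sur D0 n
    show (∃ s : Finset ℕ, (∀ c ∈ s, ∀ d e, Dif (fun x y => le (f x) (f y)) c d e →
        DDc (fun x y => le (f x) (f y)) (fun x => D0 (f x)) n d ∨
        DDc (fun x y => le (f x) (f y)) (fun x => D0 (f x)) n e) ∧
      ∀ u, (∀ c ∈ s, le (f c) (f u)) → le (f a) (f u)) ↔
      ∃ s : Finset ℕ, (∀ c ∈ s, ∀ d e, Dif le c d e → DDc le D0 n d ∨ DDc le D0 n e) ∧
        ∀ u, (∀ c ∈ s, le c u) → le (f a) u
    refine Iff.trans ?_ (fin_sur hf).exists.symm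
    refine exists_congr fun s => ?_
    have h1 : ∀ p : ℕ → Prop, (∀ c ∈ Finset.image f s, p c) ↔ ∀ c ∈ s, p (f c) := fun p =>
      Finset.forall_mem_image
    rw [h1]
    refine and_congr ?_ ?_
    · refine forall_congr' fun c => forall_congr' fun _ => ?_
      refine Iff.trans ?_ hf.forall.symm
      refine forall_congr' fun d => ?_
      refine Iff.trans ?_ hf.forall.symm
      refine forall_congr' fun e => ?_
      rw [Dif_sur hf, ih d, ih e]
    · refine Iff.trans ?_ hf.forall.symm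
      refine forall_congr' fun u => ?_
      rw [h1]

theorem ALc_sur (D0 : ℕ → Prop) (n a : ℕ) :
    ALc (fun x y => le (f x) (f y)) (fun x => D0 (f x)) n a ↔ ALc le D0 n (f a) := by
  refine Iff.trans ?_ hf.forall.symm
  refine forall_congr' fun c => ?_
  refine imp_congr Iff.rfl (imp_congr (not_congr (DDc_sur hf le D0 n c)) ?_)
  refine Iff.trans ?_ hf.exists.symm
  refine exists_congr fun d => ?_
  refine Iff.trans ?_ hf.exists.symm
  refine exists_congr fun e => ?_
  rw [Dif_sur hf, DDc_sur hf, DDc_sur hf]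

theorem PPc_sur (D0 : ℕ → Prop) (n a : ℕ) :
    PPc (fun x y => le (f x) (f y)) (fun x => D0 (f x)) n a ↔ PPc le D0 n (f a) := by
  refine and_congr (not_congr (DDc_sur hf le D0 n a)) (and_congr (ALc_sur hf le D0 n a) ?_)
  refine Iff.trans ?_ hf.forall.symm
  refine forall_congr' fun c => imp_congr Iff.rfl (forall_congr' fun m =>
    imp_congr Iff.rfl ?_)
  exact imp_congr (ALc_sur hf le D0 m c) (DDc_sur hf le D0 n c)

end inv

/-! ### Structures which interpret a Boolean algebra -/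

theorem le_dec {S : L.Structure ℕ} {M : Type} {n : ℕ} {p : Fin n → ℕ}
    {φ : L.Formula (Fin n ⊕ Fin 2)} {ψ : M → L.Formula (Fin n ⊕ Fin 1)} {bo : BooleanAlgebra ℕ}
    {mu : ℕ → M} {f : ℕ → ℕ} (h : Dec1 S p φ ψ bo mu f) :
    leS φ S p = fun x y => bo.le (f x) (f y) := by
  funext x y
  exact propext (h.le ![x, y])

theorem mu_dec {S : L.Structure ℕ} {M : Type} [Zero M] {n : ℕ} {p : Fin n → ℕ}
    {φ : L.Formula (Fin n ⊕ Fin 2)} {ψ : M → L.Formula (Fin n ⊕ Fin 1)} {bo : BooleanAlgebra ℕ}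
    {mu : ℕ → M} {f : ℕ → ℕ} (h : Dec1 S p φ ψ bo mu f) :
    muS ψ S p = fun x => mu (f x) := by
  funext x
  unfold muS
  have h1 : (fun c => @Formula.Realize L ℕ S _ (ψ c) (Sum.elim p ![x])) =
      fun c => mu (f x) = c := by
    funext c
    exact propext (h.val c ![x])
  rw [h1, pick_eq]

theorem D0_dec (MEA : S_MEA) {S : L.Structure ℕ} {M : Type} [Finite M] [Zero M] {n : ℕ}
    {p : Fin n → ℕ} {φ : L.Formula (Fin n ⊕ Fin 2)} {ψ : M → L.Formula (Fin n ⊕ Fin 1)}
    {bo : BooleanAlgebra ℕ} {mu : ℕ → M} {f : ℕ → ℕ} (h : Dec1 S p φ ψ bo mu f)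
    (G : Set (FT M)) :
    D0S φ ψ G S p = fun b => @ft M ℕ bo mu (f b) ∈ G := by
  funext b
  unfold D0S
  rw [le_dec h, mu_dec h]
  refine propext ⟨?_, ?_⟩
  · rintro ⟨t, ht, h1⟩
    have h2 : @ft M ℕ bo mu (f b) = t := by
      funext k
      rw [← h1 k, tpc_sur h.surj bo.le mu k b, (MEA M).1 bo mu k (f b)]
      rfl
    rw [h2]
    exact ht
  · intro hb
    refine ⟨_, hb, fun k => ?_⟩
    rw [tpc_sur h.surj bo.le mu k b]
    exact (MEA M).1 bo mu k (f b)

open Classical in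
/-- Leaf ST5. -/
theorem ST5 (SIL : S_SIL) (MEA : S_MEA) (MEW : S_MEW) : S_ST5 := by
  intro L hL T M _ _ n φ ψ G hG hT
  obtain ⟨cd, hcd⟩ := exists_surjective_nat ((Fin n → ℕ) × ℕ)
  let V : L.Structure ℕ → ℕ → (ℕ → Bool) := fun S m i =>
    decide (∃ b, leS φ S (cd m).1 b (cd m).2 ∧
      PPc (leS φ S (cd m).1) (D0S φ ψ G S (cd m).1) i b)
  have hV : ∀ S m i, V S m i = true ↔ ∃ b, leS φ S (cd m).1 b (cd m).2 ∧
      PPc (leS φ S (cd m).1) (D0S φ ψ G S (cd m).1) i b := fun S m i => decide_eq_true_iff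
  have h1 := SIL L hL T V ?_ ?_ hT
  · refine (h1.image fun v : ℕ → Bool => {i : ℕ | v i = true}).mono ?_
    rintro w ⟨S, p, bo, mu, f, a, hS, hd, hm, rfl⟩
    obtain ⟨a', rfl⟩ := hd.surj a
    obtain ⟨m, hm2⟩ := hcd (p, a')
    refine ⟨V S m, ⟨S, hS, m, rfl⟩, ?_⟩
    ext i
    show V S m i = true ↔ _
    rw [hV, hm2, le_dec hd, D0_dec MEA hd G]
    refine Iff.trans ?_ ((MEW.1 bo (fun b => @ft M ℕ bo mu b ∈ G) i (f a'))).symm
    refine Iff.trans ?_ hd.surj.exists.symm
    refine exists_congr fun b => and_congr_right fun _ => ?_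
    exact PPc_sur hd.surj bo.le (fun b => @ft M ℕ bo mu b ∈ G) i b
  · intro m i
    have e1 : {S : L.Structure ℕ | V S m i = true} = {S : L.Structure ℕ |
        ∃ b, leS φ S (cd m).1 b (cd m).2 ∧
          PPc (leS φ S (cd m).1) (D0S φ ψ G S (cd m).1) i b} := by
      ext S
      exact hV S m i
    rw [e1]
    let _ : MeasurableSpace (L.Structure ℕ) := SM L
    exact MEW.2 (L.Structure ℕ) (fun S => leS φ S (cd m).1) (fun S => D0S φ ψ G S (cd m).1)
      (fun a b => meas_le φ (cd m).1 a b) (fun b => meas_D0 MEA φ ψ G hG (cd m).1 b) i (cd m).2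
  · rintro S S' ⟨e⟩ m
    have he := tr_iso e
    obtain ⟨σ, hσ⟩ : ∃ σ : ℕ ≃ ℕ, Tr S S' σ := ⟨_, he⟩
    obtain ⟨m', hm'⟩ := hcd (fun i => σ ((cd m).1 i), σ (cd m).2)
    refine ⟨m', ?_⟩
    funext i
    rw [Bool.eq_iff_iff, hV, hV, hm', le_inv hσ φ (cd m).1, D0_inv hσ φ ψ G (cd m).1]
    refine Iff.trans σ.surjective.exists ?_
    refine exists_congr fun b => and_congr_right fun _ => ?_
    exact (PPc_inv σ (leS φ S' fun i => σ ((cd m).1 i))
      (D0S φ ψ G S' fun i => σ ((cd m).1 i)) i b).symm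

end Pool.Agent.N81.VB.ST5
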